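import Pool.Agent.P.MP_91e65d_lc.Glue

set_option autoImplicit false

namespace Pool.Agent.Results.MP_91e65d_lc.FrechetAmenableIsAmenable

open Pool.Agent.P.MP_91e65d_lc

/-- Every Frechet amenable countable Borel equivalence relation is 1-amenable. -/
theorem result {X : Type*} [MeasurableSpace X] [StandardBorelSpace X] (E : Setoid X)
    (hE : MeasurableSet {p : X × X | E p.1 p.2}) (hc : ∀ x, {y | E x y}.Countable)
    (e : ℕ × ℕ ≃ ℕ)
    (h : ∃ α : Ordinal.{0}, 1 ≤ α ∧ α < Ordinal.omega 1 ∧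
      ∃ F : Filter ℕ, IsFr e α F ∧ AmenableAlong E F) :
    AmenableAlong E Filter.cofinite := by
  obtain ⟨_, -, -, F, hF, h⟩ := h
  exact amenable_of_good hE (good_of_isFr hE hc hF) h

end Pool.Agent.Results.MP_91e65d_lc.FrechetAmenableIsAmenable
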