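import Pool.Agent.P.MP_91e65d_lc.Gr.Final

set_option autoImplicit false

namespace Pool.Agent.Results.MP_91e65d_lc.SlowGrowth

open Pool.Agent.P.MP_91e65d_lc

/-- The connectedness relation of a Borel graph whose balls of radius `n` have at most
`exp (C n ^ γ)` points, with `γ < (3 - √5) / 2`, is hyperfinite. -/
theorem result {X : Type*} [MeasurableSpace X] [StandardBorelSpace X] (E : Setoid X)
    (hE : MeasurableSet {p : X × X | E p.1 p.2}) (G : SimpleGraph X)
    (hG : MeasurableSet {p : X × X | G.Adj p.1 p.2}) (hEG : ∀ x y, E x y ↔ G.Reachable x y)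
    (γ C : ℝ) (h0 : 0 < γ) (h1 : γ < (3 - √5) / 2)
    (hB : ∀ (x : X) (n : ℕ), {y | G.edist x y ≤ n}.Finite ∧
      ({y | G.edist x y ≤ n}.ncard : ℝ) ≤ Real.exp (C * (n : ℝ) ^ γ)) : Tr.Hyperfinite E :=
  Gr.hyperfinite_of_growth E hE G hG hEG h0 h1 hB

end Pool.Agent.Results.MP_91e65d_lc.SlowGrowth
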