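import Pool.Agent.P.MP_91e65d_lc.Tr.Weiss

set_option autoImplicit false

namespace Pool.Agent.Results.MP_91e65d_lc.TreeableRateHyperfinite

open Pool.Agent.P.MP_91e65d_lc.Tr

/-- A treeable countable Borel equivalence relation that is amenable with a rate of convergence
independent of the points is hyperfinite. -/
theorem result {X : Type*} [MeasurableSpace X] [StandardBorelSpace X] (E : Setoid X)
    (hE : MeasurableSet {p : X × X | E p.1 p.2}) (hc : ∀ x, {y | E x y}.Countable)
    (hT : Treeable E) (h : AmenableWithRate E) : Hyperfinite E :=
  hyperfinite_of_rate hE hc hT h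

end Pool.Agent.Results.MP_91e65d_lc.TreeableRateHyperfinite
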