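import Pool.Agent.P.MP_91e65d_lc.Ws.Poly

set_option autoImplicit false

namespace Pool.Agent.Results.MP_91e65d_lc.WeissPolyByPoly

open Pool.Agent.P.MP_91e65d_lc.Tr Pool.Agent.P.MP_91e65d_lc.Ws

/-- If every finitely generated subgroup of a countable group is an extension of a group of
polynomial growth by a normal subgroup of local polynomial growth with sub-tower constants, then
the orbit equivalence relation of every Borel action of the group on a standard Borel space is
hyperfinite. -/
theorem result {Γ X : Type*} [Group Γ] [Countable Γ] [MeasurableSpace X] [StandardBorelSpace X]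
    [MulAction Γ X] (hm : ∀ γ : Γ, Measurable fun x : X => γ • x)
    (h : ∀ H : Subgroup Γ, H.FG → PolyByPoly H) : Hyperfinite (MulAction.orbitRel Γ X) :=
  hyperfinite_local hm h

end Pool.Agent.Results.MP_91e65d_lc.WeissPolyByPoly
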